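import Mathlib

set_option autoImplicit false

namespace Pool.Agent.K1H98.FR

open Filter Topology Set

/-- an interval of numbers whose first multiples by powers of `a` meet neighbourhoods of finitely many
given residues -/
lemma exists_open_fin {a : ℝ} (ha : 1 < a) {ε : ℝ} (hε : 0 < ε) (F : Finset ℝ) :
    ∃ lo hi : ℝ, 1 < lo ∧ lo < hi ∧ hi < a ∧ ∃ M : ℕ, ∀ t : ℝ, lo < t → t < hi →
      ∀ y ∈ F, ∃ m : ℕ, m ≤ M ∧ ∃ z : ℤ, |a ^ m * t - y - z| < ε := by
  classical
  have ha0 : 0 < a := by linarith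
  induction F using Finset.induction_on with
  | empty =>
    refine ⟨1 + (a - 1) / 4, 1 + (a - 1) / 2, by linarith, by linarith, by linarith, 0, ?_⟩
    intro t _ _ y hy
    simp at hy
  | insert y F _ ih =>
    obtain ⟨lo, hi, h1, h2, h3, M, hM⟩ := ih
    obtain ⟨m, hm⟩ := pow_unbounded_of_one_lt (2 / (hi - lo)) ha
    have hd : 0 < hi - lo := by linarith
    have hpow : (0 : ℝ) < a ^ m := by positivity
    have hm' : 2 < a ^ m * (hi - lo) := by
      rwa [div_lt_iff₀ hd] at hm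
    set z : ℤ := ⌊a ^ m * ((lo + hi) / 2) - y⌋ with hz
    have hz1 : (z : ℝ) ≤ a ^ m * ((lo + hi) / 2) - y := Int.floor_le _
    have hz2 : a ^ m * ((lo + hi) / 2) - y < z + 1 := Int.lt_floor_add_one _
    set t2 : ℝ := (y + z) / a ^ m with ht2
    have ht2' : a ^ m * t2 = y + z := by rw [ht2]; field_simp
    have h4 : t2 ≤ (lo + hi) / 2 := by
      have : a ^ m * t2 ≤ a ^ m * ((lo + hi) / 2) := by rw [ht2']; linarith
      exact le_of_mul_le_mul_left this hpow
    have h5 : lo < t2 := by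
      have : a ^ m * lo < a ^ m * t2 := by rw [ht2']; nlinarith
      exact lt_of_mul_lt_mul_left this hpow.le
    refine ⟨max lo (t2 - ε / (2 * a ^ m)), min hi (t2 + ε / (2 * a ^ m)),
      lt_of_lt_of_le h1 (le_max_left _ _), ?_, lt_of_le_of_lt (min_le_left _ _) h3, max M m, ?_⟩
    · have hq : 0 < ε / (2 * a ^ m) := by positivity
      refine max_lt (lt_min h2 (by linarith)) (lt_min (by linarith) (by linarith))
    · intro t ht1 ht2b w hw
      have hl1 : lo < t := lt_of_le_of_lt (le_max_left _ _) ht1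
      have hl2 : t2 - ε / (2 * a ^ m) < t := lt_of_le_of_lt (le_max_right _ _) ht1
      have hu1 : t < hi := lt_of_lt_of_le ht2b (min_le_left _ _)
      have hu2 : t < t2 + ε / (2 * a ^ m) := lt_of_lt_of_le ht2b (min_le_right _ _)
      rcases Finset.mem_insert.1 hw with rfl | hw
      · refine ⟨m, le_max_right _ _, z, ?_⟩
        have e : a ^ m * t - w - z = a ^ m * (t - t2) := by
          rw [mul_sub, ht2']; ring
        rw [e, abs_mul, abs_of_pos hpow]
        have h6 : |t - t2| < ε / (2 * a ^ m) := by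
          rw [abs_lt]; constructor <;> linarith
        calc a ^ m * |t - t2| < a ^ m * (ε / (2 * a ^ m)) :=
              mul_lt_mul_of_pos_left h6 hpow
          _ = ε / 2 := by field_simp
          _ < ε := by linarith
      · obtain ⟨m', hm1, z', hz'⟩ := hM t hl1 hu1 w hw
        exact ⟨m', hm1.trans (le_max_left _ _), z', hz'⟩

/-- an interval of numbers whose first multiples by powers of `a` are `ε`-dense modulo one -/
lemma exists_open {a : ℝ} (ha : 1 < a) {ε : ℝ} (hε : 0 < ε) :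
    ∃ lo hi : ℝ, 1 < lo ∧ lo < hi ∧ hi < a ∧ ∃ M : ℕ, ∀ t : ℝ, lo < t → t < hi →
      ∀ y : ℝ, ∃ m : ℕ, m ≤ M ∧ ∃ z : ℤ, |a ^ m * t - y - z| < ε := by
  obtain ⟨N, hN⟩ := exists_nat_gt (2 / ε)
  have hN0 : (0 : ℝ) < N := lt_trans (by positivity) hN
  have hN1 : 1 / (N : ℝ) < ε / 2 := by
    rw [div_lt_div_iff₀ hN0 (by norm_num)]
    rw [div_lt_iff₀ hε] at hN
    linarith
  obtain ⟨lo, hi, h1, h2, h3, M, hM⟩ := exists_open_fin ha (half_pos hε)
    ((Finset.range N).image fun j : ℕ => (j : ℝ) / N)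
  refine ⟨lo, hi, h1, h2, h3, M, fun t ht1 ht2 y => ?_⟩
  have hf0 := Int.fract_nonneg y
  have hf1 := Int.fract_lt_one y
  set j : ℕ := ⌊(N : ℝ) * Int.fract y⌋₊ with hj
  have hj1 : (j : ℝ) ≤ N * Int.fract y := Nat.floor_le (by positivity)
  have hj2 : (N : ℝ) * Int.fract y < j + 1 := Nat.lt_floor_add_one _
  have hjN : j < N := by
    have : (j : ℝ) < N := lt_of_le_of_lt hj1 (by nlinarith)
    exact_mod_cast this
  obtain ⟨m, hm, z, hz⟩ := hM t ht1 ht2 ((j : ℝ) / N)
    (Finset.mem_image.2 ⟨j, Finset.mem_range.2 hjN, rfl⟩)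
  refine ⟨m, hm, z - ⌊y⌋, ?_⟩
  have h4 : |(j : ℝ) / N - Int.fract y| < ε / 2 := by
    have e1 : (j : ℝ) / N ≤ Int.fract y := by rw [div_le_iff₀ hN0]; linarith
    have e2 : Int.fract y < (j : ℝ) / N + 1 / N := by
      rw [← add_div, lt_div_iff₀ hN0]; linarith
    rw [abs_lt]; constructor <;> linarith
  have e : a ^ m * t - y - ((z - ⌊y⌋ : ℤ) : ℝ) =
      (a ^ m * t - (j : ℝ) / N - z) + ((j : ℝ) / N - Int.fract y) := by
    have : y = ⌊y⌋ + Int.fract y := (Int.floor_add_fract y).symm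
    push_cast
    linarith
  rw [e]
  calc _ ≤ |a ^ m * t - (j : ℝ) / N - z| + |(j : ℝ) / N - Int.fract y| := abs_add_le _ _
    _ < ε / 2 + ε / 2 := add_lt_add hz h4
    _ = ε := by ring

/-- a rotation by an irrational angle visits every interval of a given length within a bounded time -/
lemma recurrence {α : ℝ} (hα : Irrational α) {ℓ : ℝ} (hℓ : 0 < ℓ) :
    ∃ R : ℕ, ∀ w v : ℝ, ∃ k : ℕ, k < R ∧ ∃ N : ℤ, v < k * α + w - N ∧ k * α + w - N < v + ℓ := by
  obtain ⟨n, hn⟩ := exists_nat_gt (1 / ℓ)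
  have hn0 : (0 : ℝ) < n := lt_trans (by positivity) hn
  have hn0' : 0 < n := by exact_mod_cast hn0
  obtain ⟨q, hq0, -, hq⟩ := Real.exists_nat_abs_mul_sub_round_le α hn0'
  set p : ℤ := round ((q : ℝ) * α) with hp
  set δ : ℝ := q * α - p with hδ
  have hδℓ : |δ| < ℓ := by
    refine lt_of_le_of_lt hq ?_
    rw [div_lt_iff₀ (by positivity)]
    rw [div_lt_iff₀ hℓ] at hn
    nlinarith
  have hδ0 : δ ≠ 0 := by
    intro h
    have h1 : (q : ℝ) * α = p := by linarith
    have : Irrational ((q : ℝ) * α) := by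
      have := hα.ratCast_mul (q := (q : ℚ)) (by exact_mod_cast hq0.ne')
      simpa using this
    exact this ⟨(p : ℚ), by rw [h1]; simp⟩
  have habs : 0 < |δ| := abs_pos.2 hδ0
  refine ⟨q * (⌊1 / |δ|⌋₊ + 1) + 1, fun w v => ?_⟩
  have key : ∀ (r : ℝ), 0 ≤ r → r ≤ 1 → ∃ j : ℕ, j ≤ ⌊1 / |δ|⌋₊ + 1 ∧ r < j * |δ| ∧
      j * |δ| ≤ r + |δ| := by
    intro r hr hr1
    refine ⟨⌊r / |δ|⌋₊ + 1, ?_, ?_, ?_⟩
    · have : ⌊r / |δ|⌋₊ ≤ ⌊1 / |δ|⌋₊ := Nat.floor_le_floor (by gcongr)
      omega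
    · have := Nat.lt_floor_add_one (r / |δ|)
      rw [div_lt_iff₀ habs] at this
      push_cast
      linarith
    · have := Nat.floor_le (a := r / |δ|) (by positivity)
      rw [le_div_iff₀ habs] at this
      push_cast
      nlinarith
  rcases lt_or_gt_of_ne hδ0 with hneg | hpos
  · have habs' : |δ| = -δ := abs_of_neg hneg
    set N0 : ℤ := ⌊w - v - ℓ⌋ with hN0
    have h1 : (N0 : ℝ) ≤ w - v - ℓ := Int.floor_le _
    have h2 : w - v - ℓ < N0 + 1 := Int.lt_floor_add_one _
    obtain ⟨j, hj1, hj2, hj3⟩ := key (w - N0 - (v + ℓ)) (by linarith) (by linarith)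
    refine ⟨j * q, ?_, N0 + j * p, ?_, ?_⟩
    · have : j * q ≤ q * (⌊1 / |δ|⌋₊ + 1) := by rw [mul_comm]; exact Nat.mul_le_mul_left _ hj1
      omega
    · have e : ((j * q : ℕ) : ℝ) * α + w - ((N0 + j * p : ℤ) : ℝ) = w - N0 - j * |δ| := by
        rw [habs', hδ]; push_cast; ring
      rw [e]
      linarith
    · have e : ((j * q : ℕ) : ℝ) * α + w - ((N0 + j * p : ℤ) : ℝ) = w - N0 - j * |δ| := by
        rw [habs', hδ]; push_cast; ring
      rw [e]
      linarith
  · have habs' : |δ| = δ := abs_of_pos hpos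
    set N0 : ℤ := ⌈w - v⌉ with hN0
    have h1 : w - v ≤ N0 := Int.le_ceil _
    have h2 : (N0 : ℝ) < w - v + 1 := Int.ceil_lt_add_one _
    obtain ⟨j, hj1, hj2, hj3⟩ := key (v - (w - N0)) (by linarith) (by linarith)
    refine ⟨j * q, ?_, N0 + j * p, ?_, ?_⟩
    · have : j * q ≤ q * (⌊1 / |δ|⌋₊ + 1) := by rw [mul_comm]; exact Nat.mul_le_mul_left _ hj1
      omega
    · have e : ((j * q : ℕ) : ℝ) * α + w - ((N0 + j * p : ℤ) : ℝ) = w - N0 + j * |δ| := by
        rw [habs', hδ]; push_cast; ring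
      rw [e]
      linarith
    · have e : ((j * q : ℕ) : ℝ) * α + w - ((N0 + j * p : ℤ) : ℝ) = w - N0 + j * |δ| := by
        rw [habs', hδ]; push_cast; ring
      rw [e]
      linarith

/-- multiplicative independence -/
def Indep (a b : ℝ) : Prop := ∀ k l : ℕ, 0 < k → 0 < l → a ^ k ≠ b ^ l

lemma irrational_log {a b : ℝ} (ha : 1 < a) (hb : 1 < b) (h : Indep a b) :
    Irrational (Real.log b / Real.log a) := by
  have hla : 0 < Real.log a := Real.log_pos ha
  have hlb : 0 < Real.log b := Real.log_pos hb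
  have ha0 : 0 < a := by linarith
  have hb0 : 0 < b := by linarith
  rintro ⟨r, hr⟩
  have hr0 : (0 : ℝ) < r := by rw [hr]; positivity
  have hr0' : 0 < r := by exact_mod_cast hr0
  have hnum : 0 < r.num := Rat.num_pos.2 hr0'
  obtain ⟨p, hp⟩ := Int.eq_ofNat_of_zero_le hnum.le
  have hp0 : 0 < p := by
    rw [hp] at hnum
    exact_mod_cast hnum
  have hden := r.den_pos
  have hr2 : (r : ℝ) = p / r.den := by
    rw [Rat.cast_def, hp]; simp
  rw [hr2] at hr
  have hdr : (0 : ℝ) < r.den := by exact_mod_cast hden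
  have h1 : (p : ℝ) * Real.log a = r.den * Real.log b := by
    rw [div_eq_div_iff hdr.ne' hla.ne'] at hr
    linarith
  have h2 : Real.log (a ^ p) = Real.log (b ^ r.den) := by
    rw [Real.log_pow, Real.log_pow]; exact h1
  have h3 := Real.log_injOn_pos (Set.mem_Ioi.2 (by positivity : 0 < a ^ p))
    (Set.mem_Ioi.2 (by positivity : 0 < b ^ r.den)) h2
  exact h p r.den hp0 hden h3

/-- **Core lemma.** For every real number `c ≠ 0`, all real shifts `s k` and every target `y`, in
every window of `K` consecutive integers `n` (with `|c| ≤ a ^ n`) there is one such that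
`s k + b ^ k c / a ^ n` is `ε`-close to `y` modulo one for some `k` with `b ^ k |c| / a ^ n ≤ A`. -/
theorem core {a b : ℝ} (ha : 1 < a) (hb : 1 < b) (h : Indep a b) {ε : ℝ} (hε : 0 < ε) :
    ∃ K : ℕ, 0 < K ∧ ∃ A : ℝ, 0 < A ∧ ∀ (c : ℝ), c ≠ 0 → ∀ (s : ℕ → ℝ) (y : ℝ) (u : ℕ),
      |c| ≤ a ^ u → ∃ n : ℕ, u ≤ n ∧ n < u + K ∧ ∃ k : ℕ,
        b ^ k * |c| / a ^ n ≤ A ∧
          ∃ z : ℤ, |s k + b ^ k * c / a ^ n - y - z| < ε := by
  have haR : 1 < a := ha
  have hbR : 1 < b := hb
  have ha0 : (0 : ℝ) < a := by linarith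
  have hb0 : (0 : ℝ) < b := by linarith
  have hla : 0 < Real.log a := Real.log_pos haR
  obtain ⟨lo, hi, h1, h2, h3, M, hM⟩ := exists_open ha hε
  have hlohi : Real.log lo < Real.log hi := Real.log_lt_log (by linarith) h2
  obtain ⟨R, hR⟩ := recurrence (irrational_log ha hb h)
    (ℓ := (Real.log hi - Real.log lo) / Real.log a) (div_pos (by linarith) hla)
  obtain ⟨E, hE⟩ := pow_unbounded_of_one_lt (b ^ (R + 1)) haR
  refine ⟨M + E + 1, by omega, a ^ (M + 1), by positivity, fun c hc s y u hcu => ?_⟩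
  have hc0 : 0 < |c| := abs_pos.2 hc
  -- the first `k` with `b ^ k |c| ≥ a ^ (u + M)`
  have hex : ∃ k : ℕ, a ^ (u + M) ≤ b ^ k * |c| := by
    obtain ⟨k, hk⟩ := pow_unbounded_of_one_lt (a ^ (u + M) / |c|) hbR
    refine ⟨k, ?_⟩
    rw [div_lt_iff₀ hc0] at hk
    exact hk.le
  classical
  set k0 := Nat.find hex with hk0
  have hk0a : a ^ (u + M) ≤ b ^ k0 * |c| := Nat.find_spec hex
  have hk0b : b ^ k0 * |c| ≤ b * a ^ (u + M) := by
    rcases Nat.eq_zero_or_pos k0 with h0 | h0
    · rw [h0, pow_zero, one_mul]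
      calc |c| ≤ a ^ u := hcu
        _ ≤ a ^ (u + M) := pow_le_pow_right₀ haR.le (by omega)
        _ ≤ b * a ^ (u + M) := by
          have : (0 : ℝ) < a ^ (u + M) := by positivity
          nlinarith
    · have h4 : ¬ (a ^ (u + M) ≤ b ^ (k0 - 1) * |c|) :=
        Nat.find_min hex (by omega)
      push Not at h4
      have e : b ^ k0 = b * b ^ (k0 - 1) := by
        rw [← pow_succ']; congr 1; omega
      rw [e, mul_assoc]
      exact mul_le_mul_of_nonneg_left h4.le hb0.le
  obtain ⟨k1, hk1, N, hN1, hN2⟩ := hR (Real.log (b ^ k0 * |c|) / Real.log a)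
    (Real.log lo / Real.log a)
  set k := k0 + k1 with hk
  set T : ℝ := b ^ k * |c| with hT
  have hT0 : 0 < T := by positivity
  have hTlog : Real.log T = k1 * Real.log b + Real.log (b ^ k0 * |c|) := by
    rw [hT, hk, pow_add, mul_comm (b ^ k0), mul_assoc, Real.log_mul (by positivity)
      (by positivity), Real.log_pow]
  have e1 : (k1 : ℝ) * (Real.log b / Real.log a) +
      Real.log (b ^ k0 * |c|) / Real.log a - N = (Real.log T - N * Real.log a) / Real.log a := by
    rw [hTlog]; field_simp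
  rw [e1] at hN1 hN2
  have hlo' : Real.log lo < Real.log T - N * Real.log a := by
    rwa [div_lt_div_iff_of_pos_right hla] at hN1
  have hhi' : Real.log T - N * Real.log a < Real.log hi := by
    rw [← add_div, div_lt_div_iff_of_pos_right hla] at hN2
    linarith
  -- `N` is at least `u + M`
  have hNlow : ((u + M : ℕ) : ℤ) ≤ N := by
    by_contra hcon
    push Not at hcon
    have h5 : N + 1 ≤ ((u + M : ℕ) : ℤ) := by omega
    have h6 : ((N : ℝ) + 1) ≤ ((u + M : ℕ) : ℝ) := by exact_mod_cast h5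
    have h7 : ((u + M : ℕ) : ℝ) * Real.log a ≤ Real.log T := by
      rw [← Real.log_pow]
      refine Real.log_le_log (by positivity) (hk0a.trans ?_)
      rw [hT, hk, pow_add]
      have : (1 : ℝ) ≤ b ^ k1 := one_le_pow₀ hbR.le
      have h8 : 0 < b ^ k0 * |c| := by positivity
      nlinarith
    have h8 : Real.log hi < Real.log a := Real.log_lt_log (by linarith) h3
    nlinarith
  obtain ⟨N', hN'⟩ := Int.eq_ofNat_of_zero_le (le_trans (by positivity) hNlow)
  subst hN'
  have hNlow' : u + M ≤ N' := by exact_mod_cast hNlow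
  have hNup : N' < u + M + E := by
    by_contra hcon
    push Not at hcon
    have h5 : T ≤ b ^ (R + 1) * a ^ (u + M) := by
      calc T = b ^ k1 * (b ^ k0 * |c|) := by rw [hT, hk, pow_add]; ring
        _ ≤ b ^ R * (b * a ^ (u + M)) := by
          refine mul_le_mul (pow_le_pow_right₀ hbR.le hk1.le) hk0b (by positivity) (by positivity)
        _ = b ^ (R + 1) * a ^ (u + M) := by ring
    have h6 : T < a ^ (u + M + E) := by
      calc T ≤ b ^ (R + 1) * a ^ (u + M) := h5
        _ < a ^ E * a ^ (u + M) := mul_lt_mul_of_pos_right hE (by positivity)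
        _ = a ^ (u + M + E) := by rw [← pow_add]; congr 1; omega
    have h7 : Real.log T < ((u + M + E : ℕ) : ℝ) * Real.log a := by
      rw [← Real.log_pow]; exact Real.log_lt_log hT0 h6
    have h8 : ((u + M + E : ℕ) : ℝ) ≤ (N' : ℝ) := by exact_mod_cast hcon
    have h9 : 0 < Real.log lo := Real.log_pos h1
    push_cast at hlo' h7 h8
    nlinarith
  -- the number `t`
  set t : ℝ := T / a ^ N' with ht
  have haN : (0 : ℝ) < a ^ N' := by positivity
  have ht0 : 0 < t := by positivity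
  have hlogt : Real.log t = Real.log T - N' * Real.log a := by
    rw [ht, Real.log_div hT0.ne' haN.ne', Real.log_pow]
  have ht1 : lo < t := by
    rw [← Real.log_lt_log_iff (by linarith) ht0, hlogt]
    simpa using hlo'
  have ht2 : t < hi := by
    rw [← Real.log_lt_log_iff ht0 (by linarith), hlogt]
    simpa using hhi'
  have hmain : ∀ m : ℕ, m ≤ M → b ^ k * |c| / a ^ (N' - m) = a ^ m * t := by
    intro m hm
    rw [ht, hT]
    have e : a ^ N' = a ^ (N' - m) * a ^ m := by
      rw [← pow_add]; congr 1; omega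
    rw [e]
    field_simp
  have hbound : ∀ m : ℕ, m ≤ M → a ^ m * t ≤ a ^ (M + 1) := by
    intro m hm
    calc a ^ m * t ≤ a ^ M * a := by
          refine mul_le_mul (pow_le_pow_right₀ haR.le hm) (by linarith) ht0.le (by positivity)
      _ = a ^ (M + 1) := by ring
  rcases lt_or_gt_of_ne hc with hneg | hpos
  · obtain ⟨m, hm, z, hz⟩ := hM t ht1 ht2 (s k - y)
    refine ⟨N' - m, by omega, by omega, k, ?_, -z, ?_⟩
    · rw [hmain m hm]; exact hbound m hm
    · have e : s k + b ^ k * c / a ^ (N' - m) - y - ((-z : ℤ) : ℝ) =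
          -(a ^ m * t - (s k - y) - z) := by
        rw [← hmain m hm, abs_of_neg hneg]; push_cast; ring
      rw [e, abs_neg]
      exact hz
  · obtain ⟨m, hm, z, hz⟩ := hM t ht1 ht2 (y - s k)
    refine ⟨N' - m, by omega, by omega, k, ?_, z, ?_⟩
    · rw [hmain m hm]; exact hbound m hm
    · have e : s k + b ^ k * c / a ^ (N' - m) - y - z =
          (a ^ m * t - (y - s k) - z) := by
        rw [← hmain m hm, abs_of_pos hpos]; ring
      rw [e]
      exact hz

end Pool.Agent.K1H98.FR
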