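import Mathlib
import Pool.Agent.K1H98.FR.Core

set_option autoImplicit false

namespace Pool.Agent.K1H98.FR

open MeasureTheory ProbabilityTheory Filter Topology Set

variable {Ω : Type*}

/-- the outcomes for which the value `m` of `n i` is good -/
def G (a b A ε y : ℝ) (X C : ℕ → Ω → ℝ) (i m : ℕ) : Set Ω :=
  {ω | ∃ k : ℕ, b ^ k * |C i ω| / a ^ m ≤ A ∧
    ∃ z : ℤ, |b ^ k * X i ω + b ^ k * C i ω / a ^ m - y - z| < ε}

/-- the outcomes for which `n i` is good -/
def B (a b A ε y : ℝ) (X C : ℕ → Ω → ℝ) (n : ℕ → Ω → ℕ) (i : ℕ) : Set Ω :=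
  {ω | ω ∈ G a b A ε y X C i (n i ω)}

lemma meas_aux {m : MeasurableSpace Ω} {f g : Ω → ℝ} (hf : Measurable f) (hg : Measurable g)
    (a b A ε y : ℝ) (r : ℕ) : MeasurableSet {ω | ∃ k : ℕ, b ^ k * |g ω| / a ^ r ≤ A ∧
    ∃ z : ℤ, |b ^ k * f ω + b ^ k * g ω / a ^ r - y - z| < ε} := by
  have e : {ω | ∃ k : ℕ, b ^ k * |g ω| / a ^ r ≤ A ∧
      ∃ z : ℤ, |b ^ k * f ω + b ^ k * g ω / a ^ r - y - z| < ε} =
      ⋃ k : ℕ, ({ω | b ^ k * |g ω| / a ^ r ≤ A} ∩
        ⋃ z : ℤ, {ω | |b ^ k * f ω + b ^ k * g ω / a ^ r - y - z| < ε}) := by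
    ext ω; simp
  rw [e]
  refine MeasurableSet.iUnion fun k => MeasurableSet.inter ?_ (MeasurableSet.iUnion fun z => ?_)
  · refine measurableSet_le (f := fun ω => b ^ k * |g ω| / a ^ r) (g := fun _ => A) ?_
      measurable_const
    have h1 : Measurable fun ω => |g ω| := (continuous_abs (G := ℝ)).measurable.comp hg
    exact Measurable.div (measurable_const.mul h1) measurable_const
  · refine measurableSet_lt (f := fun ω => |b ^ k * f ω + b ^ k * g ω / a ^ r - y - z|)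
      (g := fun _ => ε) ?_ measurable_const
    refine (continuous_abs (G := ℝ)).measurable.comp ?_
    exact (((measurable_const.mul hf).add ((measurable_const.mul hg).div measurable_const)).sub
      measurable_const).sub measurable_const

lemma measG {m0 : MeasurableSpace Ω} {ℱ : Filtration ℕ m0} {X C : ℕ → Ω → ℝ}
    (hX : ∀ i, Measurable[ℱ i] (X i)) (hC : ∀ i, Measurable[ℱ i] (C i))
    (a b A ε y : ℝ) (i r : ℕ) : MeasurableSet[ℱ i] (G a b A ε y X C i r) :=
  meas_aux (hX i) (hC i) a b A ε y r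

lemma measB {m0 : MeasurableSpace Ω} {ℱ : Filtration ℕ m0} {X C : ℕ → Ω → ℝ}
    {n : ℕ → Ω → ℕ} (hX : ∀ i, Measurable[ℱ i] (X i)) (hC : ∀ i, Measurable[ℱ i] (C i))
    (hn : ∀ i, Measurable[ℱ (i + 1)] (n i))
    (a b A ε y : ℝ) (i : ℕ) : MeasurableSet[ℱ (i + 1)] (B a b A ε y X C n i) := by
  have e : B a b A ε y X C n i = ⋃ r : ℕ, (n i ⁻¹' {r} ∩ G a b A ε y X C i r) := by
    ext ω; simp [B]
  rw [e]
  refine MeasurableSet.iUnion fun r => MeasurableSet.inter ?_ ?_
  · exact (hn i) (measurableSet_singleton r)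
  · exact ℱ.mono (by omega) _ (measG hX hC a b A ε y i r)

section

variable {m0 : MeasurableSpace Ω} {P : Measure Ω} [IsProbabilityMeasure P]
  {ℱ : Filtration ℕ m0} {a : ℝ} {X C : ℕ → Ω → ℝ} {n : ℕ → Ω → ℕ} {κ : ℝ}

/-- one step: the probability of a hit, given the past -/
lemma step {b A ε y : ℝ} {K : ℕ} (hK : 0 < K) (hκ : 0 < κ)
    (hX : ∀ i, Measurable[ℱ i] (X i)) (hC : ∀ i, Measurable[ℱ i] (C i))
    (hn : ∀ i, Measurable[ℱ (i + 1)] (n i)) (i u L : ℕ)
    (hcond : ∀ m, u ≤ m → m < u + L → ∀ E, MeasurableSet[ℱ i] E →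
      κ / L * P.real E ≤ P.real (E ∩ {ω | n i ω = m}))
    (hcore : ∀ ω, ∀ v, u ≤ v → ∃ m, v ≤ m ∧ m < v + K ∧ ω ∈ G a b A ε y X C i m)
    (hL : K ≤ L) (E : Set Ω) (hE : MeasurableSet[ℱ i] E) :
    κ / (2 * K) * P.real E ≤ P.real (E ∩ B a b A ε y X C n i) := by
  have hKR : (0 : ℝ) < K := by exact_mod_cast hK
  have hLR : (0 : ℝ) < L := by exact_mod_cast (by omega : 0 < L)
  have hEm : MeasurableSet E := ℱ.le i _ hE
  set g : ℕ → ℝ := fun m => P.real (E ∩ G a b A ε y X C i (u + m)) with hg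
  have hblock : ∀ q : ℕ, (q : ℝ) * P.real E ≤ ∑ m ∈ Finset.range (q * K), g m := by
    intro q
    induction q with
    | zero => simp
    | succ q ih =>
      have e : (q + 1) * K = q * K + K := by ring
      rw [e, Finset.sum_range_add]
      have h1 : P.real E ≤ ∑ x ∈ Finset.range K, g (q * K + x) := by
        have hsub : E ⊆ ⋃ x ∈ Finset.range K, (E ∩ G a b A ε y X C i (u + (q * K + x))) := by
          intro ω hω
          obtain ⟨m, hm1, hm2, hm3⟩ := hcore ω (u + q * K) (by omega)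
          simp only [Set.mem_iUnion]
          refine ⟨m - (u + q * K), Finset.mem_range.2 (by omega), hω, ?_⟩
          have : u + (q * K + (m - (u + q * K))) = m := by omega
          rw [this]; exact hm3
        exact (measureReal_mono hsub (measure_ne_top _ _)).trans (measureReal_biUnion_finset_le _ _)
      push_cast
      linarith
  set q := L / K with hq
  have hq1 : q * K ≤ L := Nat.div_mul_le_self _ _
  have hq2 : L < (q + 1) * K := by
    have h0 := Nat.lt_div_mul_add (a := L) hK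
    have e : (q + 1) * K = q * K + K := by ring
    rw [e]
    exact h0
  have hq3 : 1 ≤ q := (Nat.one_le_div_iff hK).2 hL
  have hq4 : (L : ℝ) ≤ 2 * (q * K) := by
    have : L ≤ 2 * (q * K) := by nlinarith
    exact_mod_cast this
  have hEG : ∀ m, MeasurableSet[ℱ i] (E ∩ G a b A ε y X C i m) := fun m =>
    MeasurableSet.inter hE (measG hX hC a b A ε y i m)
  have hsum : ∑ m ∈ Finset.range (q * K), κ / L * g m ≤ P.real (E ∩ B a b A ε y X C n i) := by
    have h1 : ∀ m ∈ Finset.range (q * K), κ / L * g m ≤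
        P.real (E ∩ G a b A ε y X C i (u + m) ∩ {ω | n i ω = u + m}) := by
      intro m hm
      have hm' := Finset.mem_range.1 hm
      exact hcond (u + m) (by omega) (by omega) _ (hEG _)
    refine (Finset.sum_le_sum h1).trans ?_
    have hmn : ∀ m, MeasurableSet {ω | n i ω = m} := fun m =>
      ℱ.le (i + 1) _ ((hn i) (measurableSet_singleton m))
    have hdisj : (↑(Finset.range (q * K)) : Set ℕ).PairwiseDisjoint
        (fun m => E ∩ G a b A ε y X C i (u + m) ∩ {ω | n i ω = u + m}) := by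
      intro m1 _ m2 _ hne
      rw [Function.onFun, Set.disjoint_left]
      rintro ω ⟨-, h1⟩ ⟨-, h2⟩
      simp only [Set.mem_ofPred_eq] at h1 h2
      omega
    rw [← measureReal_biUnion_finset hdisj
      (fun m _ => (ℱ.le i _ (hEG _)).inter (hmn _)) (fun m _ => measure_ne_top _ _)]
    refine measureReal_mono ?_ (measure_ne_top _ _)
    intro ω hω
    simp only [Set.mem_iUnion] at hω
    obtain ⟨m, -, ⟨h1, h2⟩, h3⟩ := hω
    simp only [Set.mem_ofPred_eq] at h3
    refine ⟨h1, ?_⟩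
    change ω ∈ G a b A ε y X C i (n i ω)
    rw [h3]; exact h2
  refine le_trans ?_ hsum
  rw [← Finset.mul_sum]
  have h5 := hblock q
  have hP : 0 ≤ P.real E := measureReal_nonneg
  calc κ / (2 * K) * P.real E ≤ κ / L * (q * P.real E) := by
        rw [← mul_assoc]
        refine mul_le_mul_of_nonneg_right ?_ hP
        rw [div_mul_eq_mul_div, div_le_div_iff₀ (by positivity) hLR]
        nlinarith
    _ ≤ κ / L * ∑ m ∈ Finset.range (q * K), g m :=
        mul_le_mul_of_nonneg_left h5 (by positivity)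

/-- events with conditional probabilities bounded from below occur -/
lemma iterate {p : ℝ} (hp : 0 < p) {B : ℕ → Set Ω} (hB : ∀ i, MeasurableSet[ℱ (i + 1)] (B i))
    {Q : ℕ → Prop} (hQ : ∃ᶠ i in atTop, Q i)
    (hstep : ∀ i, Q i → ∀ E, MeasurableSet[ℱ i] E → p * P.real E ≤ P.real (E ∩ B i)) :
    ∀ᵐ ω ∂P, ∃ i, Q i ∧ ω ∈ B i := by
  classical
  have hstep' : ∀ i, Q i → ∀ E, MeasurableSet[ℱ i] E →
      P.real (E ∩ (B i)ᶜ) ≤ (1 - p) * P.real E := by
    intro i hi E hE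
    have h1 := hstep i hi E hE
    have h2 : P.real (E ∩ B i) + P.real (E ∩ (B i)ᶜ) = P.real E := by
      have := measureReal_inter_add_sdiff (μ := P) (s := E) (ℱ.le (i + 1) _ (hB i))
      rw [← this]; rfl
    linarith
  have hp1 : 0 ≤ 1 - p := by
    obtain ⟨i, hi⟩ := hQ.exists
    have h1 := hstep i hi Set.univ MeasurableSet.univ
    have h2 : P.real (Set.univ ∩ B i) ≤ 1 := by
      exact measureReal_le_one
    simp only [probReal_univ, mul_one] at h1
    linarith
  have key : ∀ R : ℕ, ∀ i0 : ℕ, ∀ E, MeasurableSet[ℱ i0] E →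
      P.real (E ∩ {ω | ∀ i, i0 ≤ i → Q i → ω ∉ B i}) ≤ (1 - p) ^ R * P.real E := by
    intro R
    induction R with
    | zero =>
      intro i0 E _
      rw [pow_zero, one_mul]
      exact measureReal_mono Set.inter_subset_left (measure_ne_top _ _)
    | succ R ih =>
      intro i0 E hE
      obtain ⟨i, hi, hi0⟩ := (hQ.and_eventually (eventually_ge_atTop i0)).exists
      have hE' : MeasurableSet[ℱ i] E := ℱ.mono hi0 _ hE
      have hE2 : MeasurableSet[ℱ (i + 1)] (E ∩ (B i)ᶜ) :=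
        (ℱ.mono (Nat.le_succ i) _ hE').inter (hB i).compl
      have h1 : E ∩ {ω | ∀ j, i0 ≤ j → Q j → ω ∉ B j} ⊆
          (E ∩ (B i)ᶜ) ∩ {ω | ∀ j, i + 1 ≤ j → Q j → ω ∉ B j} := by
        rintro ω ⟨h2, h3⟩
        exact ⟨⟨h2, h3 i hi0 hi⟩, fun j hj hQj => h3 j (by omega) hQj⟩
      calc P.real (E ∩ {ω | ∀ j, i0 ≤ j → Q j → ω ∉ B j}) ≤
            P.real ((E ∩ (B i)ᶜ) ∩ {ω | ∀ j, i + 1 ≤ j → Q j → ω ∉ B j}) :=
            measureReal_mono h1 (measure_ne_top _ _)
        _ ≤ (1 - p) ^ R * P.real (E ∩ (B i)ᶜ) := ih (i + 1) _ hE2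
        _ ≤ (1 - p) ^ R * ((1 - p) * P.real E) :=
            mul_le_mul_of_nonneg_left (hstep' i hi E hE') (pow_nonneg hp1 R)
        _ = (1 - p) ^ (R + 1) * P.real E := by ring
  have hzero : P.real {ω | ∀ i, 0 ≤ i → Q i → ω ∉ B i} ≤ 0 := by
    refine ge_of_tendsto (x := atTop) (f := fun R : ℕ => (1 - p) ^ R * P.real (Set.univ : Set Ω))
      ?_ (Eventually.of_forall fun R => ?_)
    · have := (tendsto_pow_atTop_nhds_zero_of_lt_one hp1 (by linarith : 1 - p < 1)).mul_const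
        (P.real (Set.univ : Set Ω))
      simpa using this
    · have := key R 0 Set.univ MeasurableSet.univ
      rwa [Set.univ_inter] at this
  have hz : P {ω | ∀ i, 0 ≤ i → Q i → ω ∉ B i} = 0 := by
    have h1 : P.real {ω | ∀ i, 0 ≤ i → Q i → ω ∉ B i} = 0 := le_antisymm hzero measureReal_nonneg
    rwa [measureReal_eq_zero_iff (measure_ne_top _ _)] at h1
  rw [ae_iff]
  refine measure_mono_null ?_ hz
  intro ω hω i _ hQi hBi
  exact hω ⟨i, hQi, hBi⟩

/-- The index `i` is `K`-spread: given the past `ℱ i`, the integer `n i` is spread over a window of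
length `L ≥ K` (each value has conditional probability at least `κ / L`), the coefficient `C i` is not
zero and not too large, and `x = X i + C i / a ^ n i` up to an error of at most `1 / K` times the
last term. -/
def Spread (a κ : ℝ) (P : Measure Ω) (ℱ : Filtration ℕ m0) (X C : ℕ → Ω → ℝ) (n : ℕ → Ω → ℕ)
    (x : Ω → ℝ) (K i : ℕ) : Prop :=
  ∃ u L : ℕ, K ≤ L ∧
    (∀ m, u ≤ m → m < u + L → ∀ E, MeasurableSet[ℱ i] E →
      κ / L * P.real E ≤ P.real (E ∩ {ω | n i ω = m})) ∧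
    ∀ ω, C i ω ≠ 0 ∧ |C i ω| ≤ a ^ u ∧
      K * |x ω - (X i ω + C i ω / a ^ n i ω)| ≤ |C i ω| / a ^ n i ω

/-- the multiples of `x` by the powers of one `b` -/
theorem ae_hit (ha : 1 < a) (hκ : 0 < κ) {x : Ω → ℝ}
    (hX : ∀ i, Measurable[ℱ i] (X i)) (hC : ∀ i, Measurable[ℱ i] (C i))
    (hn : ∀ i, Measurable[ℱ (i + 1)] (n i))
    (hS : ∀ K : ℕ, ∃ᶠ i in atTop, Spread a κ P ℱ X C n x K i)
    {b : ℝ} (hb : 1 < b) (hab : Indep a b) (y : ℝ) {ε : ℝ} (hε : 0 < ε) :
    ∀ᵐ ω ∂P, ∃ k : ℕ, ∃ z : ℤ, |b ^ k * x ω - y - z| < ε := by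
  have ha0 : 0 < a := by linarith
  have hb0 : 0 < b := by linarith
  obtain ⟨K, hK, A, hA, hcore⟩ := core ha hb hab (half_pos hε)
  obtain ⟨K', hK'⟩ := exists_nat_gt (max (K : ℝ) (2 * A / ε))
  have hK1 : K ≤ K' := by
    have := lt_of_le_of_lt (le_max_left _ _) hK'
    exact_mod_cast this.le
  have hK2 : 2 * A / ε < K' := lt_of_le_of_lt (le_max_right _ _) hK'
  have hK0 : (0 : ℝ) < K' := lt_trans (by positivity) hK2
  have hae := iterate (P := P) (ℱ := ℱ) (p := κ / (2 * K)) (by positivity)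
    (B := B a b A (ε / 2) y X C n) (measB hX hC hn a b A (ε / 2) y)
    (Q := Spread a κ P ℱ X C n x K') (hS K') (fun i hi E hE => ?_)
  · filter_upwards [hae] with ω hω
    obtain ⟨i, ⟨u, L, -, -, hi⟩, k, hk, z, hz⟩ := hω
    refine ⟨k, z, ?_⟩
    obtain ⟨-, -, hx'⟩ := hi ω
    have e : b ^ k * x ω - y - z = (b ^ k * X i ω + b ^ k * C i ω / a ^ n i ω - y - z) +
        b ^ k * (x ω - (X i ω + C i ω / a ^ n i ω)) := by ring
    have h1 : |b ^ k * (x ω - (X i ω + C i ω / a ^ n i ω))| ≤ ε / 2 := by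
      rw [abs_mul, abs_of_pos (by positivity : 0 < b ^ k)]
      have h2 : K' * (b ^ k * |x ω - (X i ω + C i ω / a ^ n i ω)|) ≤ A := by
        calc _ = b ^ k * (K' * |x ω - (X i ω + C i ω / a ^ n i ω)|) := by ring
          _ ≤ b ^ k * (|C i ω| / a ^ n i ω) := mul_le_mul_of_nonneg_left hx' (by positivity)
          _ = b ^ k * |C i ω| / a ^ n i ω := by ring
          _ ≤ A := hk
      have h3 : 2 * A < K' * ε := by rwa [div_lt_iff₀ hε] at hK2
      by_contra hcon
      push Not at hcon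
      nlinarith
    rw [e]
    calc _ ≤ |b ^ k * X i ω + b ^ k * C i ω / a ^ n i ω - y - z| + _ := abs_add_le _ _
      _ < ε / 2 + ε / 2 := add_lt_add_of_lt_of_le hz h1
      _ = ε := by ring
  · obtain ⟨u, L, hKL, hcond, hi⟩ := hi
    refine step hK hκ hX hC hn i u L hcond (fun ω v hv => ?_) (hK1.trans hKL) E hE
    obtain ⟨m, h1, h2, k, h3, z, h4⟩ := hcore (C i ω) (hi ω).1 (fun k => b ^ k * X i ω) y v
      ((hi ω).2.1.trans (pow_le_pow_right₀ ha.le hv))
    exact ⟨m, h1, h2, k, h3, z, h4⟩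

end

/-- the closure of the orbit of `x` modulo one under the multiplication by `b` -/
def orb (b : ℕ) (x : ℝ) : Set ℝ := closure (range fun k : ℕ => Int.fract ((b : ℝ) ^ k * x))

lemma orb_eq {b : ℕ} {x : ℝ}
    (h : ∀ (y : ℚ) (r : ℕ), ∃ k : ℕ, ∃ z : ℤ, |(b : ℝ) ^ k * x - y - z| < 1 / (r + 1)) :
    orb b x = Icc 0 1 := by
  apply Subset.antisymm
  · refine closure_minimal ?_ isClosed_Icc
    rintro _ ⟨k, rfl⟩
    exact ⟨Int.fract_nonneg _, (Int.fract_lt_one _).le⟩
  · have h1 : Ioo (0 : ℝ) 1 ⊆ orb b x := by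
      rintro y ⟨hy0, hy1⟩
      unfold orb
      rw [Metric.mem_closure_range_iff]
      intro ε hε
      set η := min (ε / 2) (min (y / 2) ((1 - y) / 2)) with hη
      have hη0 : 0 < η := by
        refine lt_min (by linarith) (lt_min (by linarith) (by linarith))
      have hη1 : η ≤ ε / 2 := min_le_left _ _
      have hη2 : η ≤ y / 2 := (min_le_right _ _).trans (min_le_left _ _)
      have hη3 : η ≤ (1 - y) / 2 := (min_le_right _ _).trans (min_le_right _ _)
      obtain ⟨q, hq1, hq2⟩ := exists_rat_btwn (by linarith : y - η < y)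
      obtain ⟨r, hr⟩ := exists_nat_one_div_lt hη0
      obtain ⟨k, z, hz⟩ := h q r
      have h2 : |(b : ℝ) ^ k * x - q - z| < η := hz.trans hr
      rw [abs_lt] at h2
      have h3 : ⌊(b : ℝ) ^ k * x⌋ = z := by
        rw [Int.floor_eq_iff]; constructor <;> linarith
      refine ⟨k, ?_⟩
      rw [Real.dist_eq, Int.fract, h3, abs_lt]
      constructor <;> linarith
    have h2 : Icc (0 : ℝ) 1 = closure (Ioo 0 1) := (closure_Ioo (by norm_num)).symm
    rw [h2]
    exact closure_minimal h1 isClosed_closure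

lemma dimH_Icc : dimH (Icc (0 : ℝ) 1) = 1 := by
  have h3 : (interior (Icc (0 : ℝ) 1)).Nonempty := by
    rw [interior_Icc]; exact ⟨1 / 2, by norm_num, by norm_num⟩
  rw [Real.dimH_of_nonempty_interior h3]
  simp

/-- the conclusion: dense orbits for all the integer bases `b` which are multiplicatively independent
of `a`, and Furstenberg's inequality for all pairs of multiplicatively independent integer bases -/
def Good (a x : ℝ) : Prop :=
  (∀ b : ℕ, 2 ≤ b → Indep a b → orb b x = Icc 0 1) ∧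
  ∀ b c : ℕ, 2 ≤ b → 2 ≤ c → Indep b c → 1 ≤ dimH (orb b x) + dimH (orb c x)

lemma good_of {a x : ℝ} (h : ∀ b : ℕ, 2 ≤ b → Indep a b → orb b x = Icc 0 1) : Good a x := by
  refine ⟨h, fun b c hb hc hbc => ?_⟩
  by_cases h1 : Indep a b
  · rw [h b hb h1, dimH_Icc]; exact le_self_add
  by_cases h2 : Indep a c
  · rw [h c hc h2, dimH_Icc]; exact le_add_self
  exfalso
  unfold Indep at h1 h2
  push Not at h1 h2
  obtain ⟨k, l, hk, hl, e1⟩ := h1
  obtain ⟨k', l', hk', hl', e2⟩ := h2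
  refine hbc (l * k') (l' * k) (by positivity) (by positivity) ?_
  calc (b : ℝ) ^ (l * k') = (a ^ k) ^ k' := by rw [e1, pow_mul]
    _ = (a ^ k') ^ k := by rw [← pow_mul, ← pow_mul, mul_comm]
    _ = (c : ℝ) ^ (l' * k) := by rw [e2, pow_mul]

/-- **The theorem for adapted series.** -/
theorem ae_good {m0 : MeasurableSpace Ω} {P : Measure Ω} [IsProbabilityMeasure P]
    {ℱ : Filtration ℕ m0} {a : ℝ} {X C : ℕ → Ω → ℝ} {n : ℕ → Ω → ℕ} {κ : ℝ}
    (ha : 1 < a) (hκ : 0 < κ) {x : Ω → ℝ}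
    (hX : ∀ i, Measurable[ℱ i] (X i)) (hC : ∀ i, Measurable[ℱ i] (C i))
    (hn : ∀ i, Measurable[ℱ (i + 1)] (n i))
    (hS : ∀ K : ℕ, ∃ᶠ i in atTop, Spread a κ P ℱ X C n x K i) :
    ∀ᵐ ω ∂P, Good a (x ω) := by
  have h1 : ∀ᵐ ω ∂P, ∀ b : ℕ, 2 ≤ b → Indep a b → ∀ (y : ℚ) (r : ℕ),
      ∃ k : ℕ, ∃ z : ℤ, |(b : ℝ) ^ k * x ω - y - z| < 1 / (r + 1) := by
    rw [ae_all_iff]
    intro b
    by_cases hb : 2 ≤ b
    · by_cases hab : Indep a b
      · have h2 : ∀ᵐ ω ∂P, ∀ (y : ℚ) (r : ℕ),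
            ∃ k : ℕ, ∃ z : ℤ, |(b : ℝ) ^ k * x ω - y - z| < 1 / (r + 1) := by
          rw [ae_all_iff]
          intro y
          rw [ae_all_iff]
          intro r
          exact ae_hit ha hκ hX hC hn hS (by exact_mod_cast (by omega : 1 < b)) hab y
            (by positivity)
        filter_upwards [h2] with ω hω _ _
        exact hω
      · exact Eventually.of_forall fun ω _ h => absurd h hab
    · exact Eventually.of_forall fun ω h => absurd h hb
  filter_upwards [h1] with ω hω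
  exact good_of fun b hb hab => orb_eq (hω b hb hab)

end Pool.Agent.K1H98.FR
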