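import Mathlib
import Pool.Agent.K1H98.FR.Main

set_option autoImplicit false

namespace Pool.Agent.K1H98.FR

open MeasureTheory ProbabilityTheory Filter Topology Set

/-- the number of the zeros which are inserted before the digit `j` if `l i` zeros are inserted before
the digit `p i`, for all `i` -/
def zeros (p l : ℕ → ℕ) (j : ℕ) : ℕ := ∑ i ∈ Finset.range (j + 1), if p i ≤ j then l i else 0

/-- the number whose expansion in base `a` is `0.d 0 d 1 d 2 …` with `l i` zeros inserted before the digit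
`p i`, for all `i` -/
noncomputable def dil (a : ℕ) (d p l : ℕ → ℕ) : ℝ := ∑' j : ℕ, (d j : ℝ) / (a : ℝ) ^ (j + 1 + zeros p l j)

lemma zeros_mono (p l : ℕ → ℕ) : Monotone (zeros p l) := by
  intro j j' h
  unfold zeros
  calc ∑ i ∈ Finset.range (j + 1), (if p i ≤ j then l i else 0)
      ≤ ∑ i ∈ Finset.range (j + 1), (if p i ≤ j' then l i else 0) := by
        refine Finset.sum_le_sum fun i _ => ?_
        split_ifs <;> omega
    _ ≤ ∑ i ∈ Finset.range (j' + 1), (if p i ≤ j' then l i else 0) :=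
        Finset.sum_le_sum_of_subset_of_nonneg
          (Finset.range_subset_range.2 (by omega)) fun _ _ _ => Nat.zero_le _

lemma zeros_eq {p : ℕ → ℕ} (hp : StrictMono p) (l : ℕ → ℕ) {i j : ℕ} (h1 : p i ≤ j)
    (h2 : j < p (i + 1)) : zeros p l j = ∑ i' ∈ Finset.range (i + 1), l i' := by
  unfold zeros
  rw [← Finset.sum_filter]
  refine Finset.sum_congr ?_ fun _ _ => rfl
  ext i'
  simp only [Finset.mem_filter, Finset.mem_range]
  constructor
  · rintro ⟨-, h3⟩
    have : p i' < p (i + 1) := lt_of_le_of_lt h3 h2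
    exact hp.lt_iff_lt.1 this
  · intro h3
    have h4 : i ≤ p i := hp.id_le i
    have h5 : p i' ≤ p i := hp.monotone (by omega)
    omega

lemma zeros_ge {p : ℕ → ℕ} (hp : StrictMono p) (l : ℕ → ℕ) {i j : ℕ} (h1 : p i ≤ j) :
    ∑ i' ∈ Finset.range (i + 1), l i' ≤ zeros p l j := by
  rw [← zeros_eq hp l le_rfl (hp (Nat.lt_succ_self i))]
  exact zeros_mono p l h1

/-- the tail of an expansion -/
lemma tail_bound {a : ℕ} (ha : 2 ≤ a) {c e : ℕ → ℕ} {e0 : ℕ} (hc : ∀ j, c j < a)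
    (he : ∀ j, e0 + j ≤ e j) :
    Summable (fun j : ℕ => (c j : ℝ) / (a : ℝ) ^ e j) ∧
      ∑' j : ℕ, (c j : ℝ) / (a : ℝ) ^ e j ≤ a / (a : ℝ) ^ e0 := by
  have haR : (1 : ℝ) < a := by exact_mod_cast (by omega : 1 < a)
  have ha0 : (0 : ℝ) < a := by linarith
  have hle : ∀ j, (c j : ℝ) / (a : ℝ) ^ e j ≤ ((a : ℝ) - 1) / (a : ℝ) ^ e0 * ((a : ℝ)⁻¹) ^ j := by
    intro j
    have h1 : (c j : ℝ) ≤ (a : ℝ) - 1 := by
      have : c j + 1 ≤ a := hc j
      have : ((c j + 1 : ℕ) : ℝ) ≤ a := by exact_mod_cast this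
      push_cast at this
      linarith
    calc (c j : ℝ) / (a : ℝ) ^ e j ≤ ((a : ℝ) - 1) / (a : ℝ) ^ (e0 + j) := by
          refine div_le_div₀ (by linarith) h1 (by positivity) (pow_le_pow_right₀ haR.le (he j))
      _ = _ := by rw [pow_add, inv_pow]; field_simp
  have hgeo : HasSum (fun j : ℕ => ((a : ℝ) - 1) / (a : ℝ) ^ e0 * ((a : ℝ)⁻¹) ^ j)
      (a / (a : ℝ) ^ e0) := by
    have h1 := (hasSum_geometric_of_lt_one (r := (a : ℝ)⁻¹) (by positivity)
      (inv_lt_one_of_one_lt₀ haR)).mul_left (((a : ℝ) - 1) / (a : ℝ) ^ e0)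
    have h2 : (a : ℝ) - 1 ≠ 0 := by linarith
    have h3 : (1 : ℝ) - (a : ℝ)⁻¹ = ((a : ℝ) - 1) / a := by field_simp
    have h4 : ((a : ℝ) - 1) / (a : ℝ) ^ e0 * (1 - (a : ℝ)⁻¹)⁻¹ = a / (a : ℝ) ^ e0 := by
      rw [h3, inv_div]; field_simp
    rwa [h4] at h1
  have hs : Summable (fun j : ℕ => (c j : ℝ) / (a : ℝ) ^ e j) :=
    Summable.of_nonneg_of_le (fun j => by positivity) hle hgeo.summable
  refine ⟨hs, ?_⟩
  rw [← hgeo.tsum_eq]
  exact hs.tsum_le_tsum hle hgeo.summable

lemma dil_split {a : ℕ} (ha : 2 ≤ a) {d : ℕ → ℕ} (hd : ∀ j, d j < a) {p : ℕ → ℕ}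
    (hp : StrictMono p) (l : ℕ → ℕ) (i : ℕ) :
    0 ≤ dil a d p l - (∑ j ∈ Finset.range (p i), (d j : ℝ) / (a : ℝ) ^ (j + 1 + zeros p l j)) ∧
      dil a d p l - (∑ j ∈ Finset.range (p i), (d j : ℝ) / (a : ℝ) ^ (j + 1 + zeros p l j)) ≤
        1 / (a : ℝ) ^ (p i + ∑ i' ∈ Finset.range (i + 1), l i') := by
  have haR : (1 : ℝ) < a := by exact_mod_cast (by omega : 1 < a)
  have ha0 : (0 : ℝ) < a := by linarith
  have hs : Summable (fun j : ℕ => (d j : ℝ) / (a : ℝ) ^ (j + 1 + zeros p l j)) :=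
    (tail_bound ha (e := fun j => j + 1 + zeros p l j) (e0 := 1) hd (fun j => by omega)).1
  have h1 := hs.sum_add_tsum_nat_add (p i)
  have h2 := (tail_bound ha (c := fun j => d (j + p i))
    (e := fun j => (j + p i) + 1 + zeros p l (j + p i))
    (e0 := p i + 1 + ∑ i' ∈ Finset.range (i + 1), l i') (fun j => hd _) (fun j => by
      have := zeros_ge hp l (i := i) (j := j + p i) (by omega)
      omega)).2
  have h3 : dil a d p l - (∑ j ∈ Finset.range (p i), (d j : ℝ) / (a : ℝ) ^ (j + 1 + zeros p l j)) =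
      ∑' j : ℕ, (d (j + p i) : ℝ) / (a : ℝ) ^ ((j + p i) + 1 + zeros p l (j + p i)) := by
    unfold dil
    rw [← h1]; ring
  rw [h3]
  refine ⟨tsum_nonneg fun j => by positivity, h2.trans (le_of_eq ?_)⟩
  rw [show p i + 1 + ∑ i' ∈ Finset.range (i + 1), l i' =
    (p i + ∑ i' ∈ Finset.range (i + 1), l i') + 1 by ring, pow_succ]
  field_simp

/-- the partial sum up to the insertion `i` -/
noncomputable def Xp (a : ℕ) (d p : ℕ → ℕ) (i : ℕ) (l : ℕ → ℕ) : ℝ :=
  ∑ j ∈ Finset.range (p i), (d j : ℝ) / (a : ℝ) ^ (j + 1 + zeros p l j)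

/-- the block after the insertion `i` -/
noncomputable def Cp (a : ℕ) (d p : ℕ → ℕ) (i : ℕ) (l : ℕ → ℕ) : ℝ :=
  (∑ j ∈ Finset.Ico (p i) (p (i + 1)), (d j : ℝ) / (a : ℝ) ^ (j + 1)) /
      (a : ℝ) ^ (∑ i' ∈ Finset.range i, l i')

lemma approx {a : ℕ} (ha : 2 ≤ a) {d : ℕ → ℕ} (hd : ∀ j, d j < a) {p : ℕ → ℕ}
    (hp : StrictMono p) (l : ℕ → ℕ) {i j : ℕ} (hj1 : p i ≤ j) (hj2 : j < p (i + 1))
    (hdj : d j ≠ 0) :
    0 < Cp a d p i l ∧ Cp a d p i l ≤ 1 ∧
      0 ≤ dil a d p l - (Xp a d p i l + Cp a d p i l / (a : ℝ) ^ l i) ∧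
      dil a d p l - (Xp a d p i l + Cp a d p i l / (a : ℝ) ^ l i) ≤
        Cp a d p i l / (a : ℝ) ^ l i / (a : ℝ) ^ l (i + 1) := by
  have haR : (1 : ℝ) < a := by exact_mod_cast (by omega : 1 < a)
  have ha0 : (0 : ℝ) < a := by linarith
  set Bl : ℝ := ∑ j ∈ Finset.Ico (p i) (p (i + 1)), (d j : ℝ) / (a : ℝ) ^ (j + 1) with hBl
  set W : ℕ := ∑ i' ∈ Finset.range i, l i' with hW
  have hBlow : 1 / (a : ℝ) ^ (p (i + 1)) ≤ Bl := by
    have h1 : (d j : ℝ) / (a : ℝ) ^ (j + 1) ≤ Bl :=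
      Finset.single_le_sum (f := fun j => (d j : ℝ) / (a : ℝ) ^ (j + 1))
        (fun _ _ => by positivity) (Finset.mem_Ico.2 ⟨hj1, hj2⟩)
    refine le_trans ?_ h1
    have h2 : (1 : ℝ) ≤ d j := by exact_mod_cast Nat.one_le_iff_ne_zero.2 hdj
    exact div_le_div₀ (by positivity) h2 (by positivity) (pow_le_pow_right₀ haR.le (by omega))
  have hBpos : 0 < Bl := lt_of_lt_of_le (by positivity) hBlow
  have hBup : Bl ≤ 1 := by
    have h1 := tail_bound ha (c := d) (e := fun j => j + 1) (e0 := 1) hd (fun j => by omega)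
    have h2 : Bl ≤ ∑' j : ℕ, (d j : ℝ) / (a : ℝ) ^ (j + 1) :=
      h1.1.sum_le_tsum _ (fun _ _ => by positivity)
    refine h2.trans (h1.2.trans (le_of_eq ?_))
    rw [pow_one]; field_simp
  have hCval : Cp a d p i l = Bl / (a : ℝ) ^ W := rfl
  have hCpos : 0 < Cp a d p i l := by rw [hCval]; positivity
  refine ⟨hCpos, ?_, ?_⟩
  · rw [hCval, div_le_iff₀ (by positivity)]
    have h1 : (1 : ℝ) ≤ (a : ℝ) ^ W := one_le_pow₀ haR.le
    linarith
  · have hsplit := dil_split ha hd hp l (i + 1)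
    have hXs : (∑ j ∈ Finset.range (p (i + 1)),
        (d j : ℝ) / (a : ℝ) ^ (j + 1 + zeros p l j)) =
        Xp a d p i l + Cp a d p i l / (a : ℝ) ^ l i := by
      have hle : p i ≤ p (i + 1) := hp.monotone (Nat.le_succ i)
      rw [← Finset.sum_range_add_sum_Ico _ hle, Xp]
      congr 1
      rw [hCval, hBl, div_div, ← pow_add, Finset.sum_div]
      refine Finset.sum_congr rfl fun j hj => ?_
      rw [Finset.mem_Ico] at hj
      rw [zeros_eq hp l hj.1 hj.2, Finset.sum_range_succ, div_div, ← pow_add]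
    rw [hXs] at hsplit
    refine ⟨hsplit.1, hsplit.2.trans ?_⟩
    have hWs : p (i + 1) + ∑ i' ∈ Finset.range (i + 1 + 1), l i' =
        p (i + 1) + W + l i + l (i + 1) := by
      rw [Finset.sum_range_succ, Finset.sum_range_succ]; ring
    rw [hWs]
    calc 1 / (a : ℝ) ^ (p (i + 1) + W + l i + l (i + 1))
        = 1 / (a : ℝ) ^ (p (i + 1)) / (a : ℝ) ^ W / (a : ℝ) ^ l i / (a : ℝ) ^ l (i + 1) := by
          rw [pow_add, pow_add, pow_add]; field_simp
      _ ≤ Bl / (a : ℝ) ^ W / (a : ℝ) ^ l i / (a : ℝ) ^ l (i + 1) := by gcongr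

/-- a block with a nonzero digit beyond any index -/
lemma exists_block {d : ℕ → ℕ} (hinf : ∀ N, ∃ j, N ≤ j ∧ d j ≠ 0) {p : ℕ → ℕ}
    (hp : StrictMono p) (N : ℕ) : ∃ i, N ≤ i ∧ ∃ j, p i ≤ j ∧ j < p (i + 1) ∧ d j ≠ 0 := by
  obtain ⟨j, hj, hdj⟩ := hinf (p N)
  have hex : ∃ i, j < p (i + 1) := ⟨j, lt_of_lt_of_le (Nat.lt_succ_self j) (hp.id_le (j + 1))⟩
  classical
  refine ⟨Nat.find hex, ?_, j, ?_, Nat.find_spec hex, hdj⟩
  · by_contra hcon
    push Not at hcon
    have h1 := Nat.find_spec hex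
    have h2 : p (Nat.find hex + 1) ≤ p N := hp.monotone (by omega)
    omega
  · rcases Nat.eq_zero_or_pos (Nat.find hex) with h0 | h0
    · rw [h0]
      exact (hp.monotone (Nat.zero_le N)).trans hj
    · have h1 := Nat.find_min hex (m := Nat.find hex - 1) (by omega)
      have h2 : Nat.find hex - 1 + 1 = Nat.find hex := by omega
      rw [h2] at h1
      omega

/-- the partial sum depends only on the lengths of the first `i` runs -/
lemma Xp_congr (a : ℕ) (d : ℕ → ℕ) {p : ℕ → ℕ} (hp : StrictMono p) {i : ℕ} {l l' : ℕ → ℕ}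
    (h : ∀ i' < i, l i' = l' i') : Xp a d p i l = Xp a d p i l' := by
  unfold Xp
  refine Finset.sum_congr rfl fun j hj => ?_
  have hj' := Finset.mem_range.1 hj
  have : zeros p l j = zeros p l' j := by
    unfold zeros
    refine Finset.sum_congr rfl fun i' _ => ?_
    by_cases hi : p i' ≤ j
    · rw [if_pos hi, if_pos hi, h i' (hp.lt_iff_lt.1 (lt_of_le_of_lt hi hj'))]
    · rw [if_neg hi, if_neg hi]
  rw [this]

lemma Cp_congr (a : ℕ) (d p : ℕ → ℕ) {i : ℕ} {l l' : ℕ → ℕ}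
    (h : ∀ i' < i, l i' = l' i') : Cp a d p i l = Cp a d p i l' := by
  unfold Cp
  rw [Finset.sum_congr rfl fun i' hi' => h i' (Finset.mem_range.1 hi')]

section

variable {Ω : Type*} {m0 : MeasurableSpace Ω}

/-- the past of a sequence of random integers -/
def past (l : ℕ → Ω → ℕ) (hl : ∀ i, Measurable (l i)) : Filtration ℕ m0 where
  seq i := ⨆ j ∈ {j | j < i}, MeasurableSpace.comap (l j) ⊤
  mono' := by
    intro i i' h
    refine biSup_mono fun j hj => ?_
    exact lt_of_lt_of_le hj h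
  le' := by
    intro i
    exact iSup₂_le fun j _ => (hl j).comap_le

lemma past_meas (l : ℕ → Ω → ℕ) (hl : ∀ i, Measurable (l i)) {i j : ℕ} (h : j < i) :
    Measurable[past l hl i] (l j) := by
  have h1 : MeasurableSpace.comap (l j) ⊤ ≤ past l hl i :=
    le_iSup₂_of_le (f := fun j (_ : j ∈ {j | j < i}) => MeasurableSpace.comap (l j) ⊤) j h le_rfl
  exact (comap_measurable (l j)).mono h1 le_rfl

lemma past_indep {P : Measure Ω} [IsProbabilityMeasure P] {l : ℕ → Ω → ℕ}
    (hl : ∀ i, Measurable (l i)) (hind : iIndepFun l P) (i m : ℕ) (E : Set Ω)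
    (hE : MeasurableSet[past l hl i] E) :
    P.real (E ∩ {ω | l i ω = m}) = P.real E * P.real {ω | l i ω = m} := by
  have h1 : ProbabilityTheory.Indep (⨆ j ∈ {j | j < i}, MeasurableSpace.comap (l j) ⊤)
      (⨆ j ∈ ({i} : Set ℕ), MeasurableSpace.comap (l j) ⊤) P := by
    refine indep_iSup_of_disjoint (fun j => (hl j).comap_le) hind ?_
    rw [Set.disjoint_singleton_right]
    exact lt_irrefl i
  rw [Indep_iff] at h1
  have h2 : MeasurableSet[⨆ j ∈ ({i} : Set ℕ), MeasurableSpace.comap (l j) ⊤] {ω | l i ω = m} := by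
    rw [iSup_singleton]
    exact ⟨{m}, trivial, rfl⟩
  have h3 := h1 E {ω | l i ω = m} hE h2
  rw [measureReal_def, h3, ENNReal.toReal_mul]
  rfl

/-- **Random dilutions.** -/
theorem ae_dil {P : Measure Ω} [IsProbabilityMeasure P] {a : ℕ} (ha : 2 ≤ a) {d : ℕ → ℕ}
    (hd : ∀ j, d j < a) (hinf : ∀ N, ∃ j, N ≤ j ∧ d j ≠ 0) {p : ℕ → ℕ} (hp : StrictMono p)
    {l : ℕ → Ω → ℕ} (hl : ∀ i, Measurable (l i)) (hind : iIndepFun l P)
    {g L : ℕ → ℕ} (hg : Tendsto g atTop atTop) (hL : Tendsto L atTop atTop)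
    (hlg : ∀ i ω, g i ≤ l i ω) {κ : ℝ} (hκ : 0 < κ)
    (hprob : ∀ i m, g i ≤ m → m < g i + L i → κ / L i ≤ P.real {ω | l i ω = m}) :
    ∀ᵐ ω ∂P, Good a (dil a d p fun i => l i ω) := by
  have haR : (1 : ℝ) < a := by exact_mod_cast (by omega : 1 < a)
  have ha0 : (0 : ℝ) < a := by linarith
  set ℱ := past l hl with hℱ
  refine ae_good (ℱ := ℱ) (X := fun i ω => Xp a d p i fun i => l i ω)
    (C := fun i ω => Cp a d p i fun i => l i ω) (n := l) haR hκ ?_ ?_ ?_ ?_
  · intro i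
    refine Finset.measurable_sum _ fun j hj => ?_
    have hj' := Finset.mem_range.1 hj
    refine Measurable.div measurable_const ?_
    refine (measurable_from_nat (f := fun k : ℕ => (a : ℝ) ^ (j + 1 + k))).comp ?_
    unfold zeros
    refine Finset.measurable_sum _ fun i' _ => ?_
    by_cases h : p i' ≤ j
    · simp only [h, if_true]
      exact past_meas l hl (hp.lt_iff_lt.1 (lt_of_le_of_lt h hj'))
    · simp only [h, if_false]
      exact measurable_const
  · intro i
    refine Measurable.div measurable_const ?_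
    refine (measurable_from_nat (f := fun k : ℕ => (a : ℝ) ^ k)).comp ?_
    exact Finset.measurable_sum _ fun i' hi' => past_meas l hl (Finset.mem_range.1 hi')
  · intro i
    exact past_meas l hl (Nat.lt_succ_self i)
  · intro K
    have hev : ∀ᶠ i in atTop, K ≤ L i ∧ K ≤ g (i + 1) :=
      (hL.eventually_ge_atTop K).and
        ((hg.comp (tendsto_add_atTop_nat 1)).eventually_ge_atTop K)
    have hfr : ∃ᶠ i in atTop, ∃ j, p i ≤ j ∧ j < p (i + 1) ∧ d j ≠ 0 := by
      rw [frequently_atTop]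
      exact fun N => exists_block hinf hp N
    refine (hfr.and_eventually hev).mono ?_
    rintro i ⟨⟨j, hj1, hj2, hdj⟩, hKL, hKg⟩
    refine ⟨g i, L i, hKL, ?_, ?_⟩
    · intro m hm1 hm2 E hE
      rw [past_indep hl hind i m E hE, mul_comm]
      exact mul_le_mul_of_nonneg_left (hprob i m hm1 hm2) measureReal_nonneg
    · intro ω
      obtain ⟨hCpos, hC1, h0, h1⟩ := approx ha hd hp (fun i => l i ω) hj1 hj2 hdj
      refine ⟨hCpos.ne', ?_, ?_⟩
      · rw [abs_of_pos hCpos]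
        exact hC1.trans (one_le_pow₀ haR.le)
      · rw [abs_of_nonneg h0, abs_of_pos hCpos]
        have hKl : (K : ℝ) ≤ (a : ℝ) ^ l (i + 1) ω := by
          have h2 : K ≤ l (i + 1) ω := hKg.trans (hlg (i + 1) ω)
          have h3 : l (i + 1) ω < a ^ l (i + 1) ω := Nat.lt_pow_self (by omega)
          exact_mod_cast h2.trans h3.le
        calc _ ≤ (a : ℝ) ^ l (i + 1) ω *
              ((Cp a d p i fun i => l i ω) / (a : ℝ) ^ l i ω / (a : ℝ) ^ l (i + 1) ω) :=
              mul_le_mul hKl h1 h0 (by positivity)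
          _ = (Cp a d p i fun i => l i ω) / (a : ℝ) ^ l i ω := by field_simp

end

/-- **Generic dilutions.** -/
theorem residual_dil {a : ℕ} (ha : 2 ≤ a) {d : ℕ → ℕ}
    (hd : ∀ j, d j < a) (hinf : ∀ N, ∃ j, N ≤ j ∧ d j ≠ 0) {p : ℕ → ℕ} (hp : StrictMono p)
    (g : ℕ → ℕ) :
    ∀ᶠ m : ℕ → ℕ in residual (ℕ → ℕ), Good a (dil a d p fun i => g i + m i) := by
  have haR : (1 : ℝ) < a := by exact_mod_cast (by omega : 1 < a)
  have ha0 : (0 : ℝ) < a := by linarith
  have hcont : Continuous fun m : ℕ → ℕ => dil a d p fun i => g i + m i := by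
    unfold dil
    refine continuous_tsum (u := fun j : ℕ => (d j : ℝ) / (a : ℝ) ^ (j + 1)) ?_
      (tail_bound ha (c := d) (e := fun j => j + 1) (e0 := 1) hd (fun j => by omega)).1 ?_
    · intro j
      refine Continuous.div continuous_const ?_ (fun m => by positivity)
      refine (continuous_of_discreteTopology (f := fun k : ℕ => (a : ℝ) ^ (j + 1 + k))).comp ?_
      unfold zeros
      refine continuous_finsetSum _ fun i _ => ?_
      by_cases h : p i ≤ j
      · simp only [h, if_true]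
        exact continuous_const.add (continuous_apply i)
      · simp only [h, if_false]
        exact continuous_const
    · intro j m
      rw [Real.norm_eq_abs, abs_of_nonneg (by positivity)]
      exact div_le_div_of_nonneg_left (by positivity) (by positivity)
        (pow_le_pow_right₀ haR.le (by omega))
  have key : ∀ b : ℕ, 2 ≤ b → Indep a b → ∀ (y : ℚ) (r : ℕ),
      ∀ᶠ m : ℕ → ℕ in residual (ℕ → ℕ), ∃ k : ℕ, ∃ z : ℤ,
        |(b : ℝ) ^ k * (dil a d p fun i => g i + m i) - y - z| < 1 / (r + 1) := by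
    intro b hb hab y r
    have hbR : (1 : ℝ) < b := by exact_mod_cast (by omega : 1 < b)
    have hε : (0 : ℝ) < 1 / (r + 1) := by positivity
    refine residual_of_dense_open ?_ ?_
    · have e : {m : ℕ → ℕ | ∃ k : ℕ, ∃ z : ℤ,
          |(b : ℝ) ^ k * (dil a d p fun i => g i + m i) - y - z| < 1 / (r + 1)} =
          ⋃ k : ℕ, ⋃ z : ℤ, {m : ℕ → ℕ |
            |(b : ℝ) ^ k * (dil a d p fun i => g i + m i) - y - z| < 1 / (r + 1)} := by
        ext m; simp
      change IsOpen {m : ℕ → ℕ | ∃ k : ℕ, ∃ z : ℤ,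
          |(b : ℝ) ^ k * (dil a d p fun i => g i + m i) - y - z| < 1 / (r + 1)}
      rw [e]
      refine isOpen_iUnion fun k => isOpen_iUnion fun z => isOpen_lt ?_ continuous_const
      exact (((continuous_const.mul hcont).sub continuous_const).sub continuous_const).abs
    · rw [(PiNat.isTopologicalBasis_cylinders fun _ => ℕ).dense_iff]
      rintro o ⟨m0, i0, rfl⟩ -
      obtain ⟨i, hi, j, hj1, hj2, hdj⟩ := exists_block hinf hp i0
      obtain ⟨K, hK, A, hA, hcore⟩ := core haR hbR hab (half_pos hε)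
      set l0 : ℕ → ℕ := fun i => g i + m0 i with hl0
      obtain ⟨hC0, hC1, -, -⟩ := approx ha hd hp l0 hj1 hj2 hdj
      obtain ⟨n, hn1, -, k, hkA, z, hz⟩ := hcore (Cp a d p i l0) hC0.ne'
        (fun k => (b : ℝ) ^ k * Xp a d p i l0) y (g i)
        (by rw [abs_of_pos hC0]; exact hC1.trans (one_le_pow₀ haR.le))
      obtain ⟨s, hs⟩ := pow_unbounded_of_one_lt (2 * A * (r + 1)) haR
      refine ⟨fun q => if q < i then m0 q else if q = i then n - g i else s, ?_, k, z, ?_⟩
      · rw [PiNat.mem_cylinder_iff]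
        intro q hq
        rw [if_pos (by omega)]
      set l : ℕ → ℕ := fun q => g q + (if q < i then m0 q else if q = i then n - g i else s) with hl
      have hll : ∀ q < i, l0 q = l q := by
        intro q hq
        rw [hl0, hl]; simp only [hq, if_true]
      have hli : l i = n := by
        rw [hl]; simp only [lt_irrefl, if_false, if_true]; omega
      have hls : s ≤ l (i + 1) := by
        rw [hl]; simp
      obtain ⟨-, -, h0, h1⟩ := approx ha hd hp l hj1 hj2 hdj
      rw [← Xp_congr a d hp hll, ← Cp_congr a d p hll, hli] at h0 h1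
      have e : (b : ℝ) ^ k * dil a d p l - y - z =
          ((b : ℝ) ^ k * Xp a d p i l0 + (b : ℝ) ^ k * Cp a d p i l0 / (a : ℝ) ^ n - y - z) +
          (b : ℝ) ^ k * (dil a d p l - (Xp a d p i l0 + Cp a d p i l0 / (a : ℝ) ^ n)) := by ring
      have h2 : (b : ℝ) ^ k * (dil a d p l - (Xp a d p i l0 + Cp a d p i l0 / (a : ℝ) ^ n)) ≤
          1 / (r + 1) / 2 := by
        rw [abs_of_pos hC0] at hkA
        calc _ ≤ (b : ℝ) ^ k * (Cp a d p i l0 / (a : ℝ) ^ n / (a : ℝ) ^ l (i + 1)) :=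
              mul_le_mul_of_nonneg_left h1 (by positivity)
          _ = ((b : ℝ) ^ k * Cp a d p i l0 / (a : ℝ) ^ n) / (a : ℝ) ^ l (i + 1) := by ring
          _ ≤ A / (a : ℝ) ^ s :=
              div_le_div₀ hA.le hkA (by positivity) (pow_le_pow_right₀ haR.le hls)
          _ ≤ 1 / (r + 1) / 2 := by
              rw [div_div, div_le_div_iff₀ (by positivity) (by positivity)]
              linarith
      rw [e]
      calc _ ≤ |(b : ℝ) ^ k * Xp a d p i l0 + (b : ℝ) ^ k * Cp a d p i l0 / (a : ℝ) ^ n - y - z| +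
            |(b : ℝ) ^ k * (dil a d p l - (Xp a d p i l0 + Cp a d p i l0 / (a : ℝ) ^ n))| :=
            abs_add_le _ _
        _ < 1 / (r + 1) / 2 + 1 / (r + 1) / 2 := by
            refine add_lt_add_of_lt_of_le hz ?_
            rw [abs_of_nonneg (mul_nonneg (by positivity) h0)]
            exact h2
        _ = 1 / (r + 1) := by ring
  have h1 : ∀ᶠ m : ℕ → ℕ in residual (ℕ → ℕ), ∀ b : ℕ, 2 ≤ b → Indep a b → ∀ (y : ℚ) (r : ℕ),
      ∃ k : ℕ, ∃ z : ℤ,
        |(b : ℝ) ^ k * (dil a d p fun i => g i + m i) - y - z| < 1 / (r + 1) := by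
    rw [eventually_countable_forall]
    intro b
    by_cases hb : 2 ≤ b
    · by_cases hab : Indep a b
      · have h2 : ∀ᶠ m : ℕ → ℕ in residual (ℕ → ℕ), ∀ (y : ℚ) (r : ℕ),
            ∃ k : ℕ, ∃ z : ℤ,
              |(b : ℝ) ^ k * (dil a d p fun i => g i + m i) - y - z| < 1 / (r + 1) := by
          rw [eventually_countable_forall]
          intro y
          rw [eventually_countable_forall]
          intro r
          exact key b hb hab y r
        filter_upwards [h2] with m hm _ _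
        exact hm
      · exact Eventually.of_forall fun m _ h => absurd h hab
    · exact Eventually.of_forall fun m h => absurd h hb
  filter_upwards [h1] with m hm
  exact good_of fun b hb hab => orb_eq (hm b hb hab)

end Pool.Agent.K1H98.FR
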