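import Mathlib
import Pool.Agent.K1H98.FR.Dil

set_option autoImplicit false

namespace Pool.Agent.K1H98.FR

open MeasureTheory ProbabilityTheory Filter Topology Set

/-- a closure is countable if the points approach a countable closed set -/
lemma countable_closure {f : ℕ → ℝ} {K : Set ℝ} (hK : IsClosed K) (hKc : K.Countable)
    (h : ∀ ε : ℝ, 0 < ε → ∀ᶠ k in atTop, ∃ c ∈ K, |f k - c| < ε) :
    (closure (range f)).Countable := by
  refine ((countable_range f).union hKc).mono ?_
  intro z hz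
  by_contra hcon
  rw [Set.mem_union, not_or] at hcon
  obtain ⟨h1, h2⟩ := hcon
  obtain ⟨r, hr, hball⟩ := Metric.isOpen_iff.1 hK.isOpen_compl z h2
  obtain ⟨N, hN⟩ := eventually_atTop.1 (h (r / 2) (by linarith))
  have hfin : IsClosed (f '' (Set.Iio N)) := ((Set.finite_Iio N).image f).isClosed
  have hz3 : z ∈ (f '' (Set.Iio N))ᶜ := by
    rintro ⟨k, -, hk⟩
    exact h1 ⟨k, hk⟩
  obtain ⟨r', hr', hball'⟩ := Metric.isOpen_iff.1 hfin.isOpen_compl z hz3
  rw [Metric.mem_closure_range_iff] at hz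
  obtain ⟨k, hk⟩ := hz (min (r / 2) r') (lt_min (by linarith) hr')
  have hk1 : dist z (f k) < r / 2 := lt_of_lt_of_le hk (min_le_left _ _)
  have hk2 : dist z (f k) < r' := lt_of_lt_of_le hk (min_le_right _ _)
  have hkN : N ≤ k := by
    by_contra hlt
    push Not at hlt
    have : f k ∈ Metric.ball z r' := by rw [Metric.mem_ball, dist_comm]; exact hk2
    exact hball' this ⟨k, hlt, rfl⟩
  obtain ⟨c, hc, hc2⟩ := hN k hkN
  have : c ∈ Metric.ball z r := by
    rw [Metric.mem_ball, Real.dist_eq]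
    rw [Real.dist_eq] at hk1
    calc |c - z| = |(c - f k) + (f k - z)| := by ring_nf
      _ ≤ |c - f k| + |f k - z| := abs_add_le _ _
      _ < r / 2 + r / 2 := by
        refine add_lt_add ?_ ?_
        · rwa [abs_sub_comm]
        · rwa [abs_sub_comm]
      _ = r := by ring
  exact hball this hc

/-- the limit set -/
def lim (a : ℕ) : Set ℝ := ⋃ e ∈ Finset.range a, insert 0 (range fun m : ℕ => (e : ℝ) / (a : ℝ) ^ (m + 1))

lemma lim_closed {a : ℕ} (ha : 2 ≤ a) : IsClosed (lim a) := by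
  have haR : (1 : ℝ) < a := by exact_mod_cast (by omega : 1 < a)
  unfold lim
  refine isClosed_biUnion_finset fun e _ => ?_
  have h1 : Tendsto (fun m : ℕ => (e : ℝ) / (a : ℝ) ^ (m + 1)) atTop (𝓝 0) := by
    have h2 := ((tendsto_pow_atTop_atTop_of_one_lt haR).comp (tendsto_add_atTop_nat 1))
    exact h2.const_div_atTop (e : ℝ)
  exact h1.isCompact_insert_range.isClosed

lemma lim_countable (a : ℕ) : (lim a).Countable := by
  unfold lim
  exact Set.Countable.biUnion (Finset.countable_toSet _) fun e _ =>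
    (countable_range _).insert 0

/-- If the runs of zeros are inserted before every digit then the orbit closure for the base `a` is
countable. -/
theorem orb_countable {a : ℕ} (ha : 2 ≤ a) {d : ℕ → ℕ} (hd : ∀ j, d j < a) {l : ℕ → ℕ}
    (hl : Tendsto l atTop atTop) : (orb a (dil a d id l)).Countable := by
  have haR : (1 : ℝ) < a := by exact_mod_cast (by omega : 1 < a)
  have ha0 : (0 : ℝ) < a := by linarith
  refine countable_closure (lim_closed ha) (lim_countable a) fun ε hε => ?_
  set N : ℕ → ℕ := fun j => j + 1 + zeros id l j with hN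
  have hNs : ∀ j, N j = j + 1 + ∑ i ∈ Finset.range (j + 1), l i := by
    intro j
    rw [hN]
    simp only
    rw [zeros_eq (p := id) strictMono_id l (i := j) (j := j) le_rfl (Nat.lt_succ_self j)]
  have hNsucc : ∀ j, N (j + 1) = N j + 1 + l (j + 1) := by
    intro j
    rw [hNs, hNs, Finset.sum_range_succ _ (j + 1)]; ring
  have hNmono : StrictMono N := strictMono_nat_of_lt_succ fun j => by rw [hNsucc]; omega
  obtain ⟨M, hM⟩ := pow_unbounded_of_one_lt (1 / ε) haR
  obtain ⟨i0, hi0⟩ := eventually_atTop.1 (hl.eventually_ge_atTop (M + 1))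
  rw [eventually_atTop]
  refine ⟨N i0, fun k hk => ?_⟩
  have hex : ∃ j, k < N j := ⟨k, by rw [hNs]; omega⟩
  classical
  set J := Nat.find hex with hJ
  have hJ1 : k < N J := Nat.find_spec hex
  have hJ2 : ∀ j, j < J → N j ≤ k := fun j hj => by
    have := Nat.find_min hex hj
    omega
  have hi0J : i0 < J := by
    by_contra hcon
    push Not at hcon
    have := hNmono.monotone hcon
    omega
  have hlJ : M + 1 ≤ l (J + 1) := hi0 (J + 1) (by omega)
  have hsplit := dil_split ha hd strictMono_id l (J + 1)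
  simp only [id] at hsplit
  rw [Finset.sum_range_succ] at hsplit
  have hexp : J + 1 + ∑ i' ∈ Finset.range (J + 1 + 1), l i' = N J + l (J + 1) := by
    rw [hNs, Finset.sum_range_succ _ (J + 1)]; ring
  rw [hexp] at hsplit
  set A : ℝ := ∑ j ∈ Finset.range J, (d j : ℝ) / (a : ℝ) ^ (j + 1 + zeros (fun x => x) l j) with hA
  set r : ℝ := dil a d (fun x => x) l - (A + (d J : ℝ) / (a : ℝ) ^ (J + 1 + zeros (fun x => x) l J))
    with hr
  have hNJ : J + 1 + zeros (fun x => x) l J = N J := rfl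
  rw [hNJ] at hr
  -- the integer part
  have hint : ∃ z : ℕ, (a : ℝ) ^ k * A = z := by
    refine ⟨∑ j ∈ Finset.range J, d j * a ^ (k - N j), ?_⟩
    rw [hA, Finset.mul_sum]
    push_cast
    refine Finset.sum_congr rfl fun j hj => ?_
    have hj' := hJ2 j (Finset.mem_range.1 hj)
    have e : (a : ℝ) ^ k = (a : ℝ) ^ (k - N j) * (a : ℝ) ^ N j := by
      rw [← pow_add]; congr 1; omega
    change (a : ℝ) ^ k * ((d j : ℝ) / (a : ℝ) ^ N j) = _
    rw [e]
    field_simp
  obtain ⟨z, hz⟩ := hint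
  set c : ℝ := (d J : ℝ) / (a : ℝ) ^ (N J - k) with hc
  have hcK : c ∈ lim a := by
    unfold lim
    simp only [Set.mem_iUnion]
    refine ⟨d J, Finset.mem_range.2 (hd J), Set.mem_insert_of_mem _ ⟨N J - k - 1, ?_⟩⟩
    rw [hc]
    have : N J - k - 1 + 1 = N J - k := by omega
    simp only [this]
  have hkc : (a : ℝ) ^ k * ((d J : ℝ) / (a : ℝ) ^ N J) = c := by
    have e : (a : ℝ) ^ N J = (a : ℝ) ^ (N J - k) * (a : ℝ) ^ k := by
      rw [← pow_add]; congr 1; omega
    rw [hc, e]
    field_simp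
  have hx : (a : ℝ) ^ k * dil a d id l = z + (c + (a : ℝ) ^ k * r) := by
    have : dil a d id l = A + (d J : ℝ) / (a : ℝ) ^ N J + r := by
      rw [hr]; change dil a d (fun x => x) l = _; ring
    rw [this, mul_add, mul_add, hz, hkc]; ring
  have hr0 : 0 ≤ (a : ℝ) ^ k * r := mul_nonneg (by positivity) hsplit.1
  have hr1 : (a : ℝ) ^ k * r ≤ 1 / (a : ℝ) ^ (l (J + 1) + 1) := by
    calc (a : ℝ) ^ k * r ≤ (a : ℝ) ^ k * (1 / (a : ℝ) ^ (N J + l (J + 1))) :=
          mul_le_mul_of_nonneg_left hsplit.2 (by positivity)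
      _ ≤ (a : ℝ) ^ k * (1 / (a : ℝ) ^ (k + (l (J + 1) + 1))) := by
          refine mul_le_mul_of_nonneg_left ?_ (by positivity)
          exact one_div_le_one_div_of_le (by positivity) (pow_le_pow_right₀ haR.le (by omega))
      _ = 1 / (a : ℝ) ^ (l (J + 1) + 1) := by rw [pow_add]; field_simp
  have hr2 : 1 / (a : ℝ) ^ (l (J + 1) + 1) < ε := by
    have h1 : 1 / ε < (a : ℝ) ^ (l (J + 1) + 1) :=
      lt_of_lt_of_le hM (pow_le_pow_right₀ haR.le (by omega))
    rw [div_lt_iff₀ hε] at h1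
    rw [div_lt_iff₀ (by positivity)]
    linarith
  have hr3 : 1 / (a : ℝ) ^ (l (J + 1) + 1) ≤ 1 / (a : ℝ) ^ 2 :=
    one_div_le_one_div_of_le (by positivity) (pow_le_pow_right₀ haR.le (by omega))
  have hc0 : 0 ≤ c := by positivity
  have hc1 : c ≤ 1 - 1 / a := by
    have h1 : (d J : ℝ) ≤ (a : ℝ) - 1 := by
      have : d J + 1 ≤ a := hd J
      have : ((d J + 1 : ℕ) : ℝ) ≤ a := by exact_mod_cast this
      push_cast at this
      linarith
    calc c ≤ ((a : ℝ) - 1) / (a : ℝ) ^ 1 := by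
          rw [hc]
          exact div_le_div₀ (by linarith) h1 (by positivity) (pow_le_pow_right₀ haR.le (by omega))
      _ = 1 - 1 / a := by rw [pow_one]; field_simp
  have hlt : c + (a : ℝ) ^ k * r < 1 := by
    have h1 : 1 / (a : ℝ) ^ 2 < 1 / a := by
      refine one_div_lt_one_div_of_lt ha0 ?_
      nlinarith
    linarith
  refine ⟨c, hcK, ?_⟩
  have hfl : Int.fract ((a : ℝ) ^ k * dil a d id l) = c + (a : ℝ) ^ k * r := by
    rw [hx, Int.fract_natCast_add, Int.fract_eq_self]
    exact ⟨by linarith, hlt⟩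
  rw [hfl, add_sub_cancel_left, abs_of_nonneg hr0]
  exact lt_of_le_of_lt hr1 hr2

end Pool.Agent.K1H98.FR
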